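import Pool.Agent.H10.BL.Stmts

set_option autoImplicit false

namespace Pool.BL

open Finset

private theorem hol_prod {κ G : Type} [CommGroup G] (s : Finset κ)
    (ψ : AddChar (Additive G) ℂ) (g : κ → G) :
    ψ (Additive.ofMul (∏ i ∈ s, g i)) = ∏ i ∈ s, ψ (Additive.ofMul (g i)) := by
  classical
  induction s using Finset.induction_on with
  | empty => simp
  | insert a s ha ih =>
    rw [Finset.prod_insert ha, Finset.prod_insert ha, ofMul_mul, AddChar.map_add_eq_mul, ih]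

/-- orthogonality: pairs with the same value -/
private theorem hol_count {β G : Type} [CommGroup G] [Fintype G] [DecidableEq G]
    (Ω : Finset β) (F : β → G) :
    (Fintype.card G : ℝ) * ((((Ω ×ˢ Ω).filter (fun w => F w.1 = F w.2)).card : ℕ) : ℝ) =
      ∑ ψ : AddChar (Additive G) ℂ, ‖∑ a ∈ Ω, ψ (Additive.ofMul (F a))‖ ^ 2 := by
  have key : ∀ a b : β, ∑ ψ : AddChar (Additive G) ℂ,
      ψ (Additive.ofMul (F a)) * (starRingEnd ℂ) (ψ (Additive.ofMul (F b))) =
      if F a = F b then (Fintype.card G : ℂ) else 0 := by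
    intro a b
    have h1 : ∀ ψ : AddChar (Additive G) ℂ,
        ψ (Additive.ofMul (F a)) * (starRingEnd ℂ) (ψ (Additive.ofMul (F b))) =
        ψ (Additive.ofMul (F a) - Additive.ofMul (F b)) := by
      intro ψ
      rw [AddChar.map_sub_eq_div, div_eq_mul_inv]
      congr 1
      have := AddChar.norm_apply ψ (Additive.ofMul (F b))
      rw [Complex.inv_def, Complex.normSq_eq_norm_sq, this]
      simp
    simp_rw [h1]
    rw [AddChar.sum_apply_eq_ite]
    simp only [sub_eq_zero, Fintype.card_additive]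
    rfl
  have h2 : ∀ ψ : AddChar (Additive G) ℂ, ((‖∑ a ∈ Ω, ψ (Additive.ofMul (F a))‖ ^ 2 : ℝ) : ℂ) =
      ∑ w ∈ Ω ×ˢ Ω, ψ (Additive.ofMul (F w.1)) * (starRingEnd ℂ) (ψ (Additive.ofMul (F w.2))) := by
    intro ψ
    rw [Complex.ofReal_pow, ← Complex.mul_conj', map_sum, Finset.sum_mul_sum,
      Finset.sum_product]
  have h3 : (((Fintype.card G : ℝ) * ((((Ω ×ˢ Ω).filter
      (fun w => F w.1 = F w.2)).card : ℕ) : ℝ) : ℝ) : ℂ) =
      ((∑ ψ : AddChar (Additive G) ℂ, ‖∑ a ∈ Ω, ψ (Additive.ofMul (F a))‖ ^ 2 : ℝ) : ℂ) := by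
    rw [Complex.ofReal_sum]
    simp_rw [h2]
    rw [Finset.sum_comm]
    simp_rw [key]
    rw [← Finset.sum_filter, Finset.sum_const, nsmul_eq_mul]
    push_cast
    ring
  exact_mod_cast h3

/-- weighted inequality of the means, total weight at most `1` -/
private theorem hol_amgm {α : Type} (s : Finset α) (w z : α → ℝ) (hw : ∀ i ∈ s, 0 ≤ w i)
    (hs : ∑ i ∈ s, w i ≤ 1) (hz : ∀ i ∈ s, 0 ≤ z i) :
    ∏ i ∈ s, z i ^ w i ≤ ∑ i ∈ s, w i * z i + (1 - ∑ i ∈ s, w i) := by
  classical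
  have h := Real.geom_mean_le_arith_mean_weighted (insertNone s)
    (fun o => Option.elim o (1 - ∑ i ∈ s, w i) w) (fun o => Option.elim o 1 z)
    (by
      intro o ho
      cases o with
      | none => simpa using hs
      | some a => exact hw a (by simpa using ho))
    (by
      rw [Finset.sum_insertNone]
      simp)
    (by
      intro o ho
      cases o with
      | none => simp
      | some a => exact hz a (by simpa using ho))
  rw [Finset.prod_insertNone, Finset.sum_insertNone] at h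
  simp only [Option.elim_none, Option.elim_some, Real.one_rpow, one_mul, mul_one] at h
  linarith

/-- Hoelder with weights of total at most `1` -/
private theorem hol_holder {α Ψ : Type} [Fintype Ψ] (s : Finset α) (w M : α → ℝ)
    (F : α → Ψ → ℝ) (hw : ∀ i ∈ s, 0 ≤ w i) (hs : ∑ i ∈ s, w i ≤ 1)
    (hF : ∀ i ∈ s, ∀ ψ, 0 ≤ F i ψ) (hM : ∀ i ∈ s, 0 < M i)
    (hE : ∀ i ∈ s, ∑ ψ, F i ψ = (Fintype.card Ψ : ℝ) * M i) :
    ∑ ψ, ∏ i ∈ s, F i ψ ^ w i ≤ (Fintype.card Ψ : ℝ) * ∏ i ∈ s, M i ^ w i := by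
  have h1 : ∀ ψ, ∏ i ∈ s, F i ψ ^ w i ≤
      (∏ i ∈ s, M i ^ w i) * (∑ i ∈ s, w i * (F i ψ / M i) + (1 - ∑ i ∈ s, w i)) := by
    intro ψ
    have h2 : ∏ i ∈ s, F i ψ ^ w i = (∏ i ∈ s, M i ^ w i) * ∏ i ∈ s, (F i ψ / M i) ^ w i := by
      rw [← Finset.prod_mul_distrib]
      refine Finset.prod_congr rfl fun i hi => ?_
      rw [← Real.mul_rpow (hM i hi).le (div_nonneg (hF i hi ψ) (hM i hi).le),
        mul_div_cancel₀ _ (hM i hi).ne']
    rw [h2]
    refine mul_le_mul_of_nonneg_left ?_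
      (Finset.prod_nonneg fun i hi => Real.rpow_nonneg (hM i hi).le _)
    exact hol_amgm s w (fun i => F i ψ / M i) hw hs
      fun i hi => div_nonneg (hF i hi ψ) (hM i hi).le
  refine (Finset.sum_le_sum fun ψ _ => h1 ψ).trans (le_of_eq ?_)
  rw [← Finset.mul_sum, Finset.sum_add_distrib, Finset.sum_comm]
  have h3 : ∑ i ∈ s, ∑ ψ, w i * (F i ψ / M i) = (Fintype.card Ψ : ℝ) * ∑ i ∈ s, w i := by
    rw [Finset.mul_sum]
    refine Finset.sum_congr rfl fun i hi => ?_
    rw [← Finset.mul_sum, ← Finset.sum_div, hE i hi]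
    have := (hM i hi).ne'
    field_simp
  rw [h3, Finset.sum_const, Finset.card_univ, nsmul_eq_mul]
  ring

/-- one factor -/
private theorem hol_point (x P : ℝ) (S : ℕ) (w : ℕ → ℝ) (hx : 0 ≤ x) (hP : 0 ≤ P) (hxP : x ≤ P)
    (hs : ∑ s ∈ Icc 1 S, (s : ℝ) * w s ≤ 1) :
    x ^ 2 ≤ P ^ (2 * (1 - ∑ s ∈ Icc 1 S, (s : ℝ) * w s)) *
      ∏ s ∈ Icc 1 S, ((x ^ 2) ^ s) ^ w s := by
  set σ := ∑ s ∈ Icc 1 S, (s : ℝ) * w s with hσ
  have hprod : (x ^ 2) ^ σ = ∏ s ∈ Icc 1 S, ((x ^ 2) ^ s) ^ w s ∨ x = 0 := by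
    rcases hx.eq_or_lt with h | h
    · exact Or.inr h.symm
    · left
      have h2 : (0 : ℝ) < x ^ 2 := by positivity
      rw [hσ, Real.rpow_sum_of_pos h2]
      refine Finset.prod_congr rfl fun s _ => ?_
      rw [Real.rpow_mul h2.le, Real.rpow_natCast]
  rcases hprod with h | h
  · rw [← h]
    rcases hx.eq_or_lt with h0 | h0
    · rw [← h0]
      have : (0 : ℝ) ^ 2 = 0 := by norm_num
      rw [this]
      exact mul_nonneg (Real.rpow_nonneg hP _) (Real.rpow_nonneg le_rfl _)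
    · have h2 : (0 : ℝ) < x ^ 2 := by positivity
      have h3 : x ^ 2 = (x ^ 2) ^ (1 - σ) * (x ^ 2) ^ σ := by
        rw [← Real.rpow_add h2]
        simp
      have h4 : (x ^ 2) ^ (1 - σ) ≤ P ^ (2 * (1 - σ)) := by
        rw [← Real.rpow_natCast, ← Real.rpow_mul hx]
        push_cast
        exact Real.rpow_le_rpow hx hxP (by linarith)
      calc x ^ 2 = (x ^ 2) ^ (1 - σ) * (x ^ 2) ^ σ := h3
        _ ≤ _ := mul_le_mul_of_nonneg_right h4 (Real.rpow_nonneg h2.le _)
  · rw [h]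
    have : (0 : ℝ) ^ 2 = 0 := by norm_num
    rw [this]
    refine mul_nonneg (Real.rpow_nonneg hP _) (Finset.prod_nonneg fun s _ => ?_)
    exact Real.rpow_nonneg (by positivity) _

theorem hol_thm : S_HOL := by
  intro ι G _ _ _ _ _ U f S w hw hs hW
  classical
  have hG : (0 : ℝ) < Fintype.card G := by exact_mod_cast Fintype.card_pos
  have hcard : Fintype.card (AddChar (Additive G) ℂ) = Fintype.card G := by
    rw [AddChar.card_eq, Fintype.card_additive]
  by_cases hU : ∃ t, U t = ∅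
  · -- an empty factor
    obtain ⟨t, ht⟩ := hU
    have h1 : Fintype.piFinset U = ∅ := by
      rw [Finset.eq_empty_iff_forall_notMem]
      intro a ha
      rw [Fintype.mem_piFinset] at ha
      have := ha t
      rw [ht] at this
      exact Finset.notMem_empty _ this
    rw [h1]
    simp only [Finset.empty_product, Finset.filter_empty, Finset.card_empty, Nat.cast_zero]
    refine Finset.prod_nonneg fun t _ => mul_nonneg (Real.rpow_nonneg (by positivity) _)
      (Finset.prod_nonneg fun s _ => Real.rpow_nonneg (by positivity) _)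
  · have hUne : ∀ t, (U t).Nonempty := fun t => by
      rw [Finset.nonempty_iff_ne_empty]
      exact fun h => hU ⟨t, h⟩
    -- the sums
    let T : ι → AddChar (Additive G) ℂ → ℂ := fun j ψ => ∑ u ∈ U j, ψ (Additive.ofMul (f j u))
    have hE := hol_count (Fintype.piFinset U) (fun p => ∏ j, f j (p j))
    have hS : ∀ ψ : AddChar (Additive G) ℂ,
        ∑ a ∈ Fintype.piFinset U, ψ (Additive.ofMul (∏ j, f j (a j))) = ∏ j, T j ψ := by
      intro ψ
      rw [Finset.prod_univ_sum]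
      refine Finset.sum_congr rfl fun a _ => ?_
      rw [hol_prod]
    simp_rw [hS] at hE
    -- moments
    have hmom : ∀ j s, ∑ ψ : AddChar (Additive G) ℂ, (‖T j ψ‖ ^ 2) ^ s =
        (Fintype.card (AddChar (Additive G) ℂ) : ℝ) * (Mom (U j) (f j) s : ℝ) := by
      intro j t
      have h1 := hol_count (Fintype.piFinset fun _ : Fin t => U j) (fun p => ∏ i, f j (p i))
      have h2 : ∀ ψ : AddChar (Additive G) ℂ,
          ∑ a ∈ Fintype.piFinset fun _ : Fin t => U j, ψ (Additive.ofMul (∏ i, f j (a i))) =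
            T j ψ ^ t := by
        intro ψ
        have h3 : T j ψ ^ t = ∏ _i : Fin t, ∑ u ∈ U j, ψ (Additive.ofMul (f j u)) := by
          rw [Finset.prod_const, Finset.card_univ, Fintype.card_fin]
        rw [h3, Finset.prod_univ_sum]
        refine Finset.sum_congr rfl fun a _ => ?_
        rw [hol_prod]
      simp_rw [h2] at h1
      have h4 : ∑ ψ : AddChar (Additive G) ℂ, (‖T j ψ‖ ^ 2) ^ t =
          ∑ ψ : AddChar (Additive G) ℂ, ‖T j ψ ^ t‖ ^ 2 := by
        refine Finset.sum_congr rfl fun ψ _ => ?_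
        rw [norm_pow, ← pow_mul, ← pow_mul, mul_comm]
      rw [h4, ← h1, hcard]
      rfl
    have hMpos : ∀ j s, (0 : ℝ) < (Mom (U j) (f j) s : ℝ) := by
      intro j s
      obtain ⟨u, hu⟩ := hUne j
      have : 0 < Mom (U j) (f j) s := by
        refine Finset.card_pos.mpr ⟨(fun _ => u, fun _ => u), ?_⟩
        rw [Finset.mem_filter, Finset.mem_product, Fintype.mem_piFinset]
        exact ⟨⟨fun _ => hu, fun _ => hu⟩, rfl⟩
      exact_mod_cast this
    -- pointwise
    have hpt : ∀ ψ : AddChar (Additive G) ℂ, ‖∏ j, T j ψ‖ ^ 2 ≤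
        (∏ t, ((U t).card : ℝ) ^ (2 * (1 - ∑ s ∈ Icc 1 S, (s : ℝ) * w t s))) *
          ∏ i ∈ (univ : Finset ι) ×ˢ Icc 1 S, ((‖T i.1 ψ‖ ^ 2) ^ i.2) ^ w i.1 i.2 := by
      intro ψ
      rw [Finset.prod_product, ← Finset.prod_mul_distrib, norm_prod, ← Finset.prod_pow]
      refine Finset.prod_le_prod (fun j _ => by positivity) fun j _ => ?_
      refine hol_point _ _ S (w j) (norm_nonneg _) (by positivity) ?_ (hs j)
      refine (norm_sum_le _ _).trans ?_
      simp only [AddChar.norm_apply, Finset.sum_const, nsmul_eq_mul, mul_one]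
      exact le_rfl
    -- Hoelder
    have hH := hol_holder ((univ : Finset ι) ×ˢ Icc 1 S) (fun i => w i.1 i.2)
      (fun i => (Mom (U i.1) (f i.1) i.2 : ℝ))
      (fun i (ψ : AddChar (Additive G) ℂ) => (‖T i.1 ψ‖ ^ 2) ^ i.2)
      (fun i _ => hw _ _) (by rw [Finset.sum_product]; exact hW)
      (fun i _ ψ => by positivity) (fun i _ => hMpos _ _) (fun i _ => hmom _ _)
    have hfin : (Fintype.card G : ℝ) * ((((Fintype.piFinset U ×ˢ Fintype.piFinset U).filter
        (fun z => ∏ j, f j (z.1 j) = ∏ j, f j (z.2 j))).card : ℕ) : ℝ) ≤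
        Fintype.card G * ∏ t, (((U t).card : ℝ) ^ (2 * (1 - ∑ s ∈ Icc 1 S, (s : ℝ) * w t s)) *
          ∏ s ∈ Icc 1 S, (Mom (U t) (f t) s : ℝ) ^ (w t s)) := by
      rw [hE]
      refine (Finset.sum_le_sum fun ψ _ => hpt ψ).trans ?_
      rw [← Finset.mul_sum, Finset.prod_mul_distrib]
      have h5 : (0 : ℝ) ≤ ∏ t, ((U t).card : ℝ) ^ (2 * (1 - ∑ s ∈ Icc 1 S, (s : ℝ) * w t s)) :=
        Finset.prod_nonneg fun t _ => Real.rpow_nonneg (by positivity) _
      refine (mul_le_mul_of_nonneg_left hH h5).trans (le_of_eq ?_)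
      rw [hcard, Finset.prod_product]
      ring
    exact le_of_mul_le_mul_left hfin hG

end Pool.BL
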